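import Pool.Agent.Run7.h794.EX.Def
import Pool.Agent.N625.PT.M
import Pool.Agent.N625.DY.I

set_option autoImplicit false

/-! Correlations of fine functions for all the multiples of the neighbours of random integers, with weights which contain
values of the von Mangoldt function. -/

namespace Pool.Agent.Run7.h794.EX
open Finset
open Pool.Agent.N625.PT (TCls)
open Pool.Agent.Y885 (Fine)
open Pool.Agent.H373R2.T7 (exI)

/-- the von Mangoldt function at the values of the linear forms -/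
lemma vm_bd2 {b : ℕ} (hb : 2 ≤ b) (B A : ℕ) : ∃ k₀ : ℕ, ∀ k : ℕ, k₀ ≤ k → ∀ a h n : ℕ, a ≤ b ^ (B * k) → h ≤ b ^ (B * k) →
    n ≤ k ^ A * b ^ k → |ArithmeticFunction.vonMangoldt (a * n + h)| ≤ (k : ℝ) ^ 2 := by
  obtain ⟨k1, hk1⟩ := exists_nat_ge ((B + 3 : ℕ) * Real.log b : ℝ)
  obtain ⟨k2, hk2⟩ := Pool.Agent.N625.DY.pow_ev b A hb
  refine ⟨k1 + k2 + 2, fun k hk a h n ha hh hn => ?_⟩
  rw [abs_of_nonneg ArithmeticFunction.vonMangoldt_nonneg]
  refine ArithmeticFunction.vonMangoldt_le_log.trans ?_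
  have q2 : k ^ A ≤ b ^ k := hk2 k (by omega)
  have q3 : 2 ≤ b ^ k := le_trans (by omega : 2 ≤ k) (Nat.lt_pow_self (by omega)).le
  have e1 : a * n + h ≤ b ^ ((B + 3) * k) := by
    calc a * n + h ≤ b ^ (B * k) * (k ^ A * b ^ k) + b ^ (B * k) := add_le_add (Nat.mul_le_mul ha hn) hh
      _ ≤ b ^ (B * k) * (b ^ k * b ^ k) + b ^ (B * k) * (b ^ k * b ^ k) := by
          apply add_le_add
          · exact Nat.mul_le_mul_left _ (Nat.mul_le_mul_right _ q2)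
          · exact Nat.le_mul_of_pos_right _ (by positivity)
      _ = b ^ (B * k) * (2 * (b ^ k * b ^ k)) := by ring
      _ ≤ b ^ (B * k) * (b ^ k * (b ^ k * b ^ k)) := Nat.mul_le_mul_left _ (Nat.mul_le_mul_right _ q3)
      _ = b ^ ((B + 3) * k) := by rw [← pow_add, ← pow_add, ← pow_add]; congr 1; ring
  rcases Nat.eq_zero_or_pos (a * n + h) with h0 | h0
  · rw [h0]
    simp only [Nat.cast_zero, Real.log_zero]
    positivity
  · have e2 : Real.log ((a * n + h : ℕ) : ℝ) ≤ Real.log ((b ^ ((B + 3) * k) : ℕ) : ℝ) :=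
      Real.log_le_log (by exact_mod_cast h0) (by exact_mod_cast e1)
    refine e2.trans ?_
    rw [Nat.cast_pow, Real.log_pow]
    have e3 : ((B + 3 : ℕ) : ℝ) * Real.log b ≤ k := hk1.trans (by exact_mod_cast (by omega : k1 ≤ k))
    calc (((B + 3) * k : ℕ) : ℝ) * Real.log b = (((B + 3 : ℕ) : ℝ) * Real.log b) * k := by push_cast; ring
      _ ≤ k * k := mul_le_mul_of_nonneg_right e3 (Nat.cast_nonneg _)
      _ = _ := by ring

variable {b : ℕ}

open Classical in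
/-- joint correlations for all the multiples of the integers near independent random integers -/
theorem multi (s : ℕ) (hb : 2 ≤ b) (κ : Fin s → ℤ) (C : Fin s → ℕ → (ℕ → ℝ) → Prop) (hC : ∀ i, TCls b (κ i) (C i))
    (θ : Fin s → ℕ → ℝ) (hθ : ∀ i, Fine (θ i)) (r B A J W U : ℕ) :
    ∃ k₀ : ℕ, ∀ k : ℕ, k₀ ≤ k → ∀ p : Fin s → ℕ → ℝ, (∀ i, C i k (p i)) →
    ∀ c : Fin s → ℤ, (∀ i, |c i| ≤ B * (b : ℤ) ^ k) →
    ∀ M : ℕ, M ≤ k ^ A → ∀ (α : Fin M → ℕ) (a d : Fin M → Fin r → ℕ) (g : Fin M → ℕ → ℂ),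
      (∀ l, 1 ≤ α l) → (∀ l j, a l j ≤ b ^ (B * k) ∧ d l j ≤ b ^ (B * k)) → (∀ l n, ‖g l n‖ ≤ 1) →
    ∑ v ∈ Fintype.piFinset (fun _ : Fin s => range (b ^ k)), (if ∀ q : Fin s → ℤ, (∀ i, |q i - (c i + κ i * v i)| ≤ (k : ℤ) ^ W) →
      ∀ h : Fin s → ℕ, (∀ i, 1 ≤ h i ∧ h i ≤ k ^ J) → ∀ l, ∀ I : Finset (Fin s), I.Nonempty → ∀ X : ℕ, α l * X ≤ k ^ A * b ^ k →
        ‖∑ n ∈ Icc 1 X, g l n * (∏ j, (ArithmeticFunction.vonMangoldt (a l j * n + d l j) : ℂ)) *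
          ∏ i ∈ I, exI (fun n => ((θ i n : ℝ) : ℂ)) (α l * n + h i * q i)‖ ≤ (b : ℝ) ^ k / (k : ℝ) ^ U
      then 0 else ∏ i, p i (v i)) ≤ 1 / (k : ℝ) ^ U := by
  obtain ⟨k₀, h0⟩ := Pool.Agent.N625.PT.t_corr s hb κ C hC θ hθ B (A + 2 * r) J W U
  obtain ⟨k1, h1⟩ := vm_bd2 hb B A
  refine ⟨k₀ + k1 + 1, fun k hk p hp c hc M hM α a d g hα had hg => ?_⟩
  have hk1 : (1 : ℝ) ≤ k := by exact_mod_cast (by omega : 1 ≤ k)
  have hkn : 1 ≤ k := by omega
  obtain ⟨g', hg'⟩ : ∃ g' : Fin M → ℕ → ℂ, g' = fun l n => if α l * n ≤ k ^ A * b ^ k then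
    g l n * ∏ j, (ArithmeticFunction.vonMangoldt (a l j * n + d l j) : ℂ) else 0 := ⟨_, rfl⟩
  have hgb : ∀ l n, ‖g' l n‖ ≤ (k : ℝ) ^ (A + 2 * r) := by
    intro l n
    rw [hg']
    simp only
    split_ifs with hn
    · have hnB : n ≤ k ^ A * b ^ k := (Nat.le_mul_of_pos_left n (hα l)).trans hn
      rw [norm_mul, norm_prod]
      have e1 : ∏ j, ‖(ArithmeticFunction.vonMangoldt (a l j * n + d l j) : ℂ)‖ ≤ ∏ _j : Fin r, (k : ℝ) ^ 2 := by
        apply prod_le_prod (fun _ _ => norm_nonneg _)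
        intro j _
        rw [Complex.norm_real, Real.norm_eq_abs]
        exact h1 k (by omega) _ _ n (had l j).1 (had l j).2 hnB
      rw [prod_const, card_univ, Fintype.card_fin, ← pow_mul] at e1
      calc _ ≤ 1 * (k : ℝ) ^ (2 * r) := mul_le_mul (hg _ _) e1 (prod_nonneg fun _ _ => norm_nonneg _) zero_le_one
        _ = (k : ℝ) ^ (2 * r) := one_mul _
        _ ≤ _ := pow_le_pow_right₀ hk1 (by omega)
    · rw [norm_zero]; positivity
  have key := h0 k (by omega) p hp c hc M (hM.trans (Nat.pow_le_pow_right hkn (by omega))) α g' hα hgb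
  refine le_trans (sum_le_sum fun v hv => ?_) key
  have hpn : 0 ≤ ∏ i, p i (v i) := prod_nonneg fun i _ => (hC i).nonneg k (p i) (hp i) _
  by_cases hQ : ∀ q : Fin s → ℤ, (∀ i, |q i - (c i + κ i * v i)| ≤ (k : ℤ) ^ W) →
      ∀ h : Fin s → ℕ, (∀ i, 1 ≤ h i ∧ h i ≤ k ^ J) → ∀ l, ∀ I : Finset (Fin s), I.Nonempty → ∀ X : ℕ,
      α l * X ≤ k ^ (A + 2 * r) * b ^ k →
        ‖∑ n ∈ Icc 1 X, g' l n * ∏ i ∈ I, exI (fun n => ((θ i n : ℝ) : ℂ)) (((α l * n : ℕ) : ℤ) + h i * q i)‖ ≤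
          (b : ℝ) ^ k / (k : ℝ) ^ U
  · rw [if_pos hQ, if_pos]
    intro q hq h hh l I hI X hX
    have hX' : α l * X ≤ k ^ (A + 2 * r) * b ^ k :=
      hX.trans (Nat.mul_le_mul_right _ (Nat.pow_le_pow_right hkn (by omega)))
    refine le_trans (le_of_eq ?_) (hQ q hq h hh l I hI X hX')
    congr 1
    apply sum_congr rfl
    intro n hn
    rw [mem_Icc] at hn
    rw [hg']
    simp only
    rw [if_pos ((Nat.mul_le_mul_left _ hn.2).trans hX)]
    push_cast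
    rfl
  · rw [if_neg hQ]
    split_ifs
    · exact hpn
    · exact le_rfl

end Pool.Agent.Run7.h794.EX
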